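import Mathlib

/-!
Code language for MP_a46c6f_co (helper16's note 6830, step (1)): the minor of a critical code
obtained by putting the OTHER letter at one place of each of the other parts of the state at `e`
has no `{0,z}`-word and every closed word avoiding `e` splits in it.
-/

namespace Pool.Agent.H1.NS

open Finset

abbrev K := ZMod 2 × ZMod 2

/-- the symplectic form on letters -/
def pr (a b : K) : ZMod 2 := a.1 * b.2 + a.2 * b.1

/-- the letter `z` -/
def zz : K := (0, 1)

theorem pr_self : ∀ a : K, pr a a = 0 := by decide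
theorem pr_zero_left : ∀ a : K, pr 0 a = 0 := by decide
theorem pr_zero_right : ∀ a : K, pr a 0 = 0 := by decide
theorem pr_zz_right : ∀ a : K, pr a zz = a.1 := by decide
theorem pr_zz_left : ∀ a : K, pr zz a = a.1 := by decide
theorem pr_add_zz : ∀ a : K, pr (a + zz) a = a.1 := by decide
theorem two_cancel : ∀ a b : K, a + b = 0 → a = 0 ∨ b = 0 → a = 0 ∧ b = 0 := by decide
theorem ne_add_zz : ∀ a : K, a ≠ a + zz := by decide
theorem zz_ne_zero : zz ≠ 0 := by decide
theorem letter_ne_zero : ∀ a : K, a.1 = 1 → a ≠ 0 := by decide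

variable {V : Type*} [Fintype V] [DecidableEq V]

def pair (u v : V → K) : ZMod 2 := ∑ i, pr (u i) (v i)

/-- every `z`-free non-zero word splits -/
def Crit (L : Submodule (ZMod 2) (V → K)) : Prop :=
  ∀ w ∈ L, w ≠ 0 → (∀ i, (w i).1 = 0 → w i = 0) →
    ∃ g, w g = 0 ∧ ∃ c1 ∈ L, ∃ c2 ∈ L, c1 g = zz ∧ c2 g = zz ∧ w = c1 + c2 ∧
      ∀ i, i ≠ g → c1 i = 0 ∨ c2 i = 0

/-- the data of note 6664 (3) at `e` -/
structure State (L : Submodule (ZMod 2) (V → K)) (e : V) {ι : Type*} [DecidableEq ι]
    (β : V → K) (c : V → ι) (m : ι → V → K) : Prop where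
  hβ : ∀ i, i ≠ e → (β i).1 = 1
  hm : ∀ j, m j ∈ L
  hme : ∀ j, m j e = zz
  hmi : ∀ j i, i ≠ e → m j i = if c i = j then β i else 0
  hD : ∀ u ∈ L, (∀ i, i ≠ e → u i = 0 ∨ u i = β i) → (u e).1 = 0 →
    ∀ i i', i ≠ e → i' ≠ e → c i = c i' → u i = 0 → u i' = 0
  hS : ∀ γ : V → K, (∀ i, i ≠ e → (γ i).1 = 1) →
    (∀ i, i ≠ e → ∃ u ∈ L, (∀ i', i' ≠ e → u i' = 0 ∨ u i' = γ i') ∧ (u e).1 = 0 ∧ u i ≠ 0) →
    (∀ i, i ≠ e → γ i = β i) ∨ (∀ i, i ≠ e → γ i = β i + zz)

variable {L : Submodule (ZMod 2) (V → K)} {e : V} {ι : Type*} [DecidableEq ι]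
  {β : V → K} {c : V → ι} {m : ι → V → K}

/-- the changed state: the other letter at the chosen places `h j` -/
def sig (β : V → K) (c : V → ι) (h : ι → V) (i : V) : K :=
  if i = h (c i) then β i + zz else β i

/-- pairing with `m j` of a word that is `≤ sig` on the part `j`, up to one place `g` -/
theorem pair_m (st : State L e β c m) (h : ι → V) (hh : ∀ j, h j ≠ e ∧ c (h j) = j)
    (j : ι) (u : V → K) (hue : (u e).1 = 0)
    (hu : ∀ i, i ≠ e → c i = j → u i = 0 ∨ u i = sig β c h i) :
    pair u (m j) = if u (h j) = 0 then 0 else 1 := by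
  unfold pair
  have hhe := (hh j).1
  have hhc := (hh j).2
  rw [← Finset.add_sum_erase _ _ (Finset.mem_univ (h j))]
  have h0 : ∑ i ∈ Finset.univ.erase (h j), pr (u i) (m j i) = 0 := by
    apply Finset.sum_eq_zero
    intro i hi
    have hne : i ≠ h j := Finset.ne_of_mem_erase hi
    by_cases hie : i = e
    · subst hie; rw [st.hme, pr_zz_right, hue]
    · rw [st.hmi j i hie]
      by_cases hc : c i = j
      · rw [if_pos hc]
        rcases hu i hie hc with h1 | h1
        · rw [h1, pr_zero_left]
        · rw [h1]; unfold sig; rw [hc, if_neg hne, pr_self]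
      · rw [if_neg hc, pr_zero_right]
  rw [h0, add_zero, st.hmi j (h j) hhe, if_pos hhc]
  rcases hu (h j) hhe hhc with h1 | h1
  · rw [if_pos h1, h1, pr_zero_left]
  · have h2 : sig β c h (h j) = β (h j) + zz := by unfold sig; rw [hhc, if_pos rfl]
    have h3 : u (h j) ≠ 0 := by
      rw [h1, h2]
      have := st.hβ (h j) hhe
      intro h4
      have h5 : (β (h j) + zz).1 = 0 := by rw [h4]; rfl
      simp [zz, this] at h5
    rw [if_neg h3, h1, h2, pr_add_zz, st.hβ _ hhe]

/-- (a) no `{0,z}`-word -/
theorem noZ (hiso : ∀ u ∈ L, ∀ v ∈ L, pair u v = 0)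
    (hz : ∀ u ∈ L, (∀ i, (u i).1 = 0) → u = 0 ∨ ∀ i, u i = zz)
    (st : State L e β c m) (h : ι → V) (hh : ∀ j, h j ≠ e ∧ c (h j) = j)
    (j0 j1 : ι) (hj : j1 ≠ j0)
    (v : V → K) (hv : v ∈ L) (hvs : ∀ i, i ≠ e → c i ≠ j0 → v i = 0 ∨ v i = sig β c h i)
    (hvz : ∀ i, (i = e ∨ c i = j0) → (v i).1 = 0) : v = 0 := by
  have hve : (v e).1 = 0 := hvz e (Or.inl rfl)
  have h1 : ∀ j, j ≠ j0 → v (h j) = 0 := by
    intro j hjj
    have := pair_m st h hh j v hve (fun i hie hc => hvs i hie (by rw [hc]; exact hjj))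
    rw [hiso v hv (m j) (st.hm j)] at this
    by_contra hne
    rw [if_neg hne] at this
    exact absurd this (by decide)
  have h2 : ∀ i, i ≠ e → c i ≠ j0 → v i = 0 ∨ v i = β i := by
    intro i hie hc
    rcases hvs i hie hc with h3 | h3
    · exact Or.inl h3
    · unfold sig at h3
      by_cases hi : i = h (c i)
      · left
        have := h1 (c i) hc
        rw [← hi] at this
        exact this
      · rw [if_neg hi] at h3; exact Or.inr h3
  let γ : V → K := fun i => if c i = j0 then β i + v i else β i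
  have hγ1 : ∀ i, i ≠ e → (γ i).1 = 1 := by
    intro i hie
    simp only [γ]
    split_ifs with hc
    · have := hvz i (Or.inr hc)
      rw [Prod.fst_add, this, st.hβ i hie, add_zero]
    · exact st.hβ i hie
  have hfull : ∀ i, i ≠ e → ∃ u ∈ L, (∀ i', i' ≠ e → u i' = 0 ∨ u i' = γ i') ∧
      (u e).1 = 0 ∧ u i ≠ 0 := by
    intro i hie
    by_cases hc : c i = j0
    · refine ⟨m j0 + v, L.add_mem (st.hm j0) hv, ?_, ?_, ?_⟩
      · intro i' hie'
        rw [Pi.add_apply, st.hmi j0 i' hie']
        by_cases hc' : c i' = j0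
        · right; simp only [γ]; rw [if_pos hc', if_pos hc']
        · rw [if_neg hc', zero_add]
          simp only [γ]; rw [if_neg hc']
          exact h2 i' hie' hc'
      · rw [Pi.add_apply, Prod.fst_add, hve, st.hme]; rfl
      · rw [Pi.add_apply, st.hmi j0 i hie, if_pos hc]
        apply letter_ne_zero
        rw [Prod.fst_add, hvz i (Or.inr hc), st.hβ i hie, add_zero]
    · refine ⟨m (c i), st.hm _, ?_, ?_, ?_⟩
      · intro i' hie'
        rw [st.hmi _ i' hie']
        by_cases hc' : c i' = c i
        · right; rw [if_pos hc']; simp only [γ]; rw [if_neg (by rw [hc']; exact hc)]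
        · left; rw [if_neg hc']
      · rw [st.hme]; rfl
      · rw [st.hmi _ i hie, if_pos rfl]
        exact letter_ne_zero _ (st.hβ i hie)
  have hh1 := hh j1
  rcases st.hS γ hγ1 hfull with h3 | h3
  · have h4 : ∀ i, i ≠ e → c i = j0 → v i = 0 := by
      intro i hie hc
      have := h3 i hie
      simp only [γ] at this
      rw [if_pos hc] at this
      exact add_eq_left.mp this
    have h5 : ∀ i, i ≠ e → v i = 0 ∨ v i = β i := by
      intro i hie
      by_cases hc : c i = j0
      · exact Or.inl (h4 i hie hc)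
      · exact h2 i hie hc
    have h6 : ∀ i, i ≠ e → v i = 0 := by
      intro i hie
      by_cases hc : c i = j0
      · exact h4 i hie hc
      · exact st.hD v hv h5 hve (h (c i)) i (hh _).1 hie (hh _).2 (h1 _ hc)
    rcases hz v hv (by
      intro i
      by_cases hie : i = e
      · rw [hie]; exact hve
      · rw [h6 i hie]; rfl) with h7 | h7
    · exact h7
    · exact absurd ((h7 (h j1)).symm.trans (h6 _ hh1.1)) zz_ne_zero
  · exfalso
    have := h3 (h j1) hh1.1
    simp only [γ] at this
    rw [if_neg (by rw [hh1.2]; exact hj)] at this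
    exact ne_add_zz _ this

/-- (b) every closed word of the minor avoiding `e` splits in the minor -/
theorem splits (hiso : ∀ u ∈ L, ∀ v ∈ L, pair u v = 0) (hcrit : Crit L)
    (st : State L e β c m) (h : ι → V) (hh : ∀ j, h j ≠ e ∧ c (h j) = j)
    (j0 : ι)
    (v : V → K) (hv : v ∈ L) (hv0 : v ≠ 0)
    (hvs : ∀ i, i ≠ e → c i ≠ j0 → v i = 0 ∨ v i = sig β c h i)
    (hve : v e = 0) (hvf : ∀ i, i ≠ e → c i = j0 → (v i).1 = 0 → v i = 0) :
    ∃ g, (g = e ∨ c g = j0) ∧ v g = 0 ∧ ∃ c1 ∈ L, ∃ c2 ∈ L, c1 g = zz ∧ c2 g = zz ∧ v = c1 + c2 ∧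
      (∀ i, i ≠ g → c1 i = 0 ∨ c2 i = 0) ∧
      (∀ i, i ≠ e → c i ≠ j0 → c1 i = 0 ∨ c1 i = sig β c h i) ∧
      (∀ i, i ≠ e → c i ≠ j0 → c2 i = 0 ∨ c2 i = sig β c h i) := by
  have hfree : ∀ i, (v i).1 = 0 → v i = 0 := by
    intro i hi
    by_cases hie : i = e
    · rw [hie]; exact hve
    · by_cases hc : c i = j0
      · exact hvf i hie hc hi
      · rcases hvs i hie hc with h1 | h1
        · exact h1
        · exfalso
          rw [h1] at hi
          unfold sig at hi
          split_ifs at hi
          · rw [Prod.fst_add, st.hβ i hie] at hi; exact absurd hi (by decide)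
          · rw [st.hβ i hie] at hi; exact absurd hi (by decide)
  obtain ⟨g, hg0, c1, hc1, c2, hc2, h1g, h2g, hsum, hdis⟩ := hcrit v hv hv0 hfree
  -- values off g
  have hval1 : ∀ i, i ≠ g → c1 i = 0 ∨ c1 i = v i := by
    intro i hi
    rcases hdis i hi with h3 | h3
    · exact Or.inl h3
    · right; rw [hsum, Pi.add_apply, h3, add_zero]
  have hval2 : ∀ i, i ≠ g → c2 i = 0 ∨ c2 i = v i := by
    intro i hi
    rcases hdis i hi with h3 | h3
    · right; rw [hsum, Pi.add_apply, h3, zero_add]
    · exact Or.inl h3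
  have key : g = e ∨ c g = j0 := by
    by_contra hcon
    push Not at hcon
    obtain ⟨hge, hgc⟩ := hcon
    have he : c1 e = 0 ∧ c2 e = 0 := by
      apply two_cancel
      · rw [← Pi.add_apply, ← hsum]; exact hve
      · exact hdis e (Ne.symm hge)
    -- the pairing with m (c g)
    have hp : ∀ d : V → K, d ∈ L → d g = zz → d e = 0 → (∀ i, i ≠ g → d i = 0 ∨ d i = v i) →
        g ≠ h (c g) ∧ d (h (c g)) ≠ 0 := by
      intro d hd hdg hde hdv
      have hpair := hiso d hd (m (c g)) (st.hm _)
      unfold pair at hpair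
      rw [← Finset.add_sum_erase _ _ (Finset.mem_univ g), hdg, st.hmi _ g hge, if_pos rfl,
        pr_zz_left, st.hβ g hge] at hpair
      by_contra hcon2
      have hrest : ∑ i ∈ Finset.univ.erase g, pr (d i) (m (c g) i) = 0 := by
        apply Finset.sum_eq_zero
        intro i hi
        have hne : i ≠ g := Finset.ne_of_mem_erase hi
        by_cases hie : i = e
        · rw [hie, hde, pr_zero_left]
        · rw [st.hmi _ i hie]
          by_cases hc : c i = c g
          · rw [if_pos hc]
            rcases hdv i hne with h5 | h5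
            · rw [h5, pr_zero_left]
            · rcases hvs i hie (by rw [hc]; exact hgc) with h6 | h6
              · rw [h5, h6, pr_zero_left]
              · rw [h5, h6]
                unfold sig
                rw [hc]
                by_cases hih : i = h (c g)
                · exfalso
                  apply hcon2
                  refine ⟨?_, ?_⟩
                  · rw [← hih]; exact hne.symm
                  · rw [← hih, h5, h6]
                    unfold sig
                    rw [hc, if_pos hih]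
                    apply letter_ne_zero
                    rw [Prod.fst_add, st.hβ i hie]; rfl
                · rw [if_neg hih, pr_self]
          · rw [if_neg hc, pr_zero_right]
      rw [hrest] at hpair
      exact absurd hpair (by decide)
    obtain ⟨hg1, h1h⟩ := hp c1 hc1 h1g he.1 hval1
    obtain ⟨_, h2h⟩ := hp c2 hc2 h2g he.2 hval2
    rcases hdis (h (c g)) (Ne.symm hg1) with h7 | h7
    · exact h1h h7
    · exact h2h h7
  refine ⟨g, key, hg0, c1, hc1, c2, hc2, h1g, h2g, hsum, hdis, ?_, ?_⟩
  · intro i hie hc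
    have hne : i ≠ g := by
      rintro rfl
      rcases key with h8 | h8
      · exact hie h8
      · exact hc h8
    rcases hval1 i hne with h9 | h9
    · exact Or.inl h9
    · rw [h9]; exact hvs i hie hc
  · intro i hie hc
    have hne : i ≠ g := by
      rintro rfl
      rcases key with h8 | h8
      · exact hie h8
      · exact hc h8
    rcases hval2 i hne with h9 | h9
    · exact Or.inl h9
    · rw [h9]; exact hvs i hie hc

end Pool.Agent.H1.NS
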